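import Pool.Agent.N239.Aff.Lower

set_option autoImplicit false
open Set Metric MeasureTheory Filter
open scoped ENNReal NNReal Topology

namespace Pool.Agent.Results.MP_b039ef_an.AssouadNeLower

open Pool.Agent.N239.Aff

theorem ae_ne (L : (Fin 2 → Euc 2) →ₗ[ℝ] ℝ) (t0 : Fin 2 → Euc 2) (h : L t0 ≠ 0) :
    ∀ᵐ t : Fin 2 → Euc 2, L t ≠ 0 := by
  have h1 : (volume : Measure (Fin 2 → Euc 2)) (LinearMap.ker L : Set (Fin 2 → Euc 2)) = 0 := by
    apply Measure.addHaar_submodule
    intro hk
    apply h
    rw [← LinearMap.mem_ker, hk]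
    exact Submodule.mem_top
  filter_upwards [measure_eq_zero_iff_ae_notMem.1 h1] with t ht
  intro h0
  exact ht (LinearMap.mem_ker.2 h0)

/-- There are two nonsingular linear maps of the plane with norms below `1/2` such that for almost
every translation vector the attractor exists and its lower dimension is smaller than its
Assouad dimension. -/
theorem result : ∃ A : Fin 2 → (Euc 2 →L[ℝ] Euc 2),
    (∀ i, Function.Bijective (A i)) ∧ (∀ i, ‖A i‖ < 1/2) ∧
    ∀ᵐ t : Fin 2 → Euc 2, (∃ F, IsAttractor A t F) ∧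
      ∀ F, IsAttractor A t F → lowerDim F < assouadDim F := by
  refine ⟨AA, AA_bij, AA_norm', ?_⟩
  have h1 := ae_ne
    { toFun := fun t => t 1 0 - t 0 0
      map_add' := fun t t' => by simp; ring
      map_smul' := fun c t => by simp; ring }
    (fun i => WithLp.toLp 2 (fun _ => (i.1 : ℝ))) (by simp)
  have h2 := ae_ne
    { toFun := fun t => Del t
      map_add' := fun t t' => by simp [Del]; ring
      map_smul' := fun c t => by simp [Del]; ring }
    (fun i => WithLp.toLp 2 (fun _ => (i.1 : ℝ))) (by simp [Del])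
  filter_upwards [h1, h2] with t ht1 ht2
  refine ⟨exists_attractor AA t 0 AA_norm', fun F hF => ?_⟩
  exact lower_lt_assouad hF (sub_ne_zero.1 ht1) ht2

end Pool.Agent.Results.MP_b039ef_an.AssouadNeLower
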